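import Pool.Agent.Helper77.RL.Goals3

/-!
# Packet RL-PPW (MP_fc6b1e_nt): characters of order `p^n`
-/

namespace Pool.Agent.Helper33.RL

open NumberField Polynomial Module IsDedekindDomain TensorProduct Pool.Agent.Helper51.SigLeo
open Pool.Agent.Helper51.RP Pool.Agent.Helper77.RL
open Pool.Agent.Helper42.RD (IsDat LocD Match TSet)

/-- A finite separable extension has finitely many subextensions. -/
theorem finite_below {K Ω : Type} [Field K] [CharZero K] [Field Ω] [Algebra K Ω]
    (F : IntermediateField K Ω) [FiniteDimensional K F] :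
    {N : IntermediateField K Ω | N ≤ F}.Finite := by
  have : Finite (IntermediateField K F) :=
    Field.finite_intermediateField_of_exists_primitive_element K F
      (Field.exists_primitive_element K F)
  refine (Set.finite_range (fun N' : IntermediateField K F => IntermediateField.lift N')).subset ?_
  intro N hN
  exact ⟨IntermediateField.restrict hN, IntermediateField.lift_restrict hN⟩

/-- A field with a CM type is totally complex. -/
theorem totallyComplex_of_cm {K : Type} [Field K] [NumberField K] (S : Set (K →+* ℂ))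
    (hS : IsCMType S) : IsTotallyComplex K := by
  refine ⟨fun w => ?_⟩
  by_contra hw
  rw [InfinitePlace.not_isComplex_iff_isReal] at hw
  have h1 : ComplexEmbedding.IsReal w.embedding := InfinitePlace.isReal_iff.mp hw
  have h2 : ComplexEmbedding.conjugate w.embedding = w.embedding := ComplexEmbedding.isReal_iff.mp h1
  have h3 := hS w.embedding
  rw [h2] at h3
  tauto

theorem l_ppw (h1 : L_RSQ) (h2 : X_LEX) (h3 : X_ADM) (h4 : X_TWI) : L_PPW := by
  intro p _ K _ _ ιinf ιp Lg M _ _ hcop hM ι _ S χ₀ c hCM hloc hinj hcc n hn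
  obtain ⟨i₀⟩ := ‹Nonempty ι›
  have hTC : IsTotallyComplex K := totallyComplex_of_cm (S i₀) (hCM i₀)
  have : Nonempty ι := ⟨i₀⟩
  obtain ⟨R, hRf, hinf⟩ := h1 p K ιinf ιp Lg M hcop hM ι S χ₀ c hCM hloc hinj hcc
  obtain ⟨L, hLnf, hLG, hLc, hLd, hspl, hunr⟩ := h2 p n K M hcop hM R hRf
  have hadm : ∀ i, Adm p (TSet ιinf ιp (S i)) R M (χ₀ i) L := fun i =>
    h3 p n K M R L hLd hspl hunr _ _
  have : FiniteDimensional K L := by
    refine Module.finite_of_finrank_pos ?_
    rw [hLd]
    exact pow_pos (Fact.out : p.Prime).pos _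
  intro hfin
  apply hinf
  refine ((finite_below L).union (hfin.biUnion
    (t := fun N' => {N : IntermediateField K (AlgebraicClosure K) | FiniteDimensional K N' ∧
      N ≤ N' ⊔ L}) ?_)).subset ?_
  · intro N' _
    by_cases hf : FiniteDimensional K N'
    · exact (finite_below (N' ⊔ L)).subset fun N hN => hN.2
    · refine Set.Finite.subset Set.finite_empty ?_
      rintro N ⟨h, -⟩
      exact hf h
  · rintro N ⟨hNd, hNG, hN⟩
    by_cases hNL : N ≤ L
    · exact Or.inl hNL
    · right
      have := hNG
      obtain ⟨N', hd', hG', hc', -, hle, htw⟩ := h4 p n hn K M hcop N L hNd hLc hLd hNL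
      refine Set.mem_iUnion₂.mpr ⟨N', ⟨hd', hG', hc', fun i => ?_⟩, ?_, hle⟩
      · exact htw ιinf ιp Lg (S i) (χ₀ i) (hinj i) (hN i L hNL (hadm i))
      · refine Module.finite_of_finrank_pos ?_
        rw [hd']
        exact pow_pos (Fact.out : p.Prime).pos _

end Pool.Agent.Helper33.RL
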